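import Mathlib

/-!
# Refining join-covers of compact elements in complete modular spatial lattices

Every join-cover of a compact element of a complete modular spatial lattice is refined by a
minimal join-cover.  In particular this holds in every algebraic modular spatial lattice.
-/

namespace Pool.Agent.Results.MP_d6b04a_al.CompactMinimalCover

universe u

/-- A *point* (completely join-irreducible element): the set `{x | x < q}` has a largest
element. -/
def IsPoint {L : Type u} [PartialOrder L] (q : L) : Prop :=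
  ∃ m, IsGreatest {x : L | x < q} m

/-- A complete lattice is *spatial* if every element is a (possibly infinite) join of points. -/
def IsSpatial (L : Type u) [CompleteLattice L] : Prop :=
  ∀ a : L, ∃ S : Set L, (∀ q ∈ S, IsPoint q) ∧ sSup S = a

/-- `X` refines `Y`: every element of `X` lies below some element of `Y`. -/
def Refines {L : Type u} [LE L] (X Y : Finset L) : Prop :=
  ∀ x ∈ X, ∃ y ∈ Y, x ≤ y

/-- The finite set `E` is a *join-cover* of `p`: `p ≤ ⋁ E`. -/
def IsJoinCover {L : Type u} [CompleteLattice L] (p : L) (E : Finset L) : Prop :=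
  p ≤ E.sup id

/-- A join-cover `E` of `p` is *minimal* if every finite join-cover `X` of `p` that refines `E`
contains `E`. -/
def IsMinimalJoinCover {L : Type u} [CompleteLattice L] (p : L) (E : Finset L) : Prop :=
  IsJoinCover p E ∧ ∀ X : Finset L, IsJoinCover p X → Refines X E → E ⊆ X

section aux

variable {L : Type u} [CompleteLattice L] [IsModularLattice L]

/-- The key step: a lower cover of a point `q ≤ p ⊔ b` is superfluous. -/
theorem superfluous {p b y q m : L} (hp : IsCompactElement p) (hb : b ≤ y) (hy : y ≤ p ⊔ b)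
    (hq : q ≤ p ⊔ b) (hm : IsGreatest {x : L | x < q} m) (h1 : p ≤ y ⊔ m) (_h2 : p ≤ y ⊔ q) :
    p ≤ y := by
  by_contra hpy
  -- a maximal element `c` above `y` and below `p ⊔ b` that is not above `p`
  obtain ⟨c, hyc, hc⟩ := zorn_le_nonempty₀ {x : L | x ≤ p ⊔ b ∧ ¬ p ≤ x} (by
    intro S hS hchain z hz
    refine ⟨sSup S, ⟨sSup_le fun x hx => (hS hx).1, ?_⟩, fun x hx => le_sSup hx⟩
    intro hle
    obtain ⟨x, hx, hpx⟩ := (CompleteLattice.isCompactElement_iff_le_of_directed_sSup_le L p).1 hp S
      ⟨z, hz⟩ hchain.directedOn hle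
    exact (hS hx).2 hpx) y ⟨hy, hpy⟩
  have hcP : c ≤ p ⊔ b ∧ ¬ p ≤ c := hc.prop
  have hbc : b ≤ c := hb.trans hyc
  have hmq : m < q := hm.1
  -- any `x ≤ p ⊔ b` with `x ≰ c` satisfies `p ≤ c ⊔ x`
  have key : ∀ x : L, x ≤ p ⊔ b → ¬ x ≤ c → p ≤ c ⊔ x := by
    intro x hx hxc
    by_contra hcon
    have : c ⊔ x ≤ c := hc.le_of_ge (y := c ⊔ x) ⟨sup_le hcP.1 hx, hcon⟩ le_sup_left
    exact hxc (le_sup_right.trans this)
  have hqc : ¬ q ≤ c := by
    intro hqc
    exact hcP.2 (h1.trans (sup_le hyc (hmq.le.trans hqc)))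
  have hmc : ¬ m ≤ c := by
    intro hmc
    exact hcP.2 (h1.trans (sup_le hyc hmc))
  have h3 : p ≤ c ⊔ m := key m (hmq.le.trans hq) hmc
  have h4 : q ≤ m ⊔ c := by
    calc q ≤ p ⊔ b := hq
      _ ≤ m ⊔ c := sup_le (h3.trans (sup_comm c m).le) (hbc.trans le_sup_right)
  -- modular law
  have h5 : q = m ⊔ c ⊓ q := by
    rw [← sup_inf_assoc_of_le c hmq.le]
    exact (inf_eq_right.2 h4).symm
  have h6 : c ⊓ q < q := lt_of_le_of_ne inf_le_right (fun h => hqc (inf_eq_right.1 h))
  have h7 : c ⊓ q ≤ m := hm.2 h6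
  have h8 : q ≤ m := by
    rw [h5]; exact sup_le le_rfl h7
  exact absurd hmq (not_lt_of_ge h8)

/-- Covering step: if `p ≤ e ⊔ b` then there is a finite set `Q` of points below
`e ⊓ (p ⊔ b)` with `p ≤ ⋁ Q ⊔ b`. -/
theorem exists_cover (hL : IsSpatial L) {p e b : L} (hp : IsCompactElement p)
    (h : p ≤ e ⊔ b) :
    ∃ Q : Finset L, (∀ q ∈ Q, IsPoint q ∧ q ≤ e ∧ q ≤ p ⊔ b) ∧ p ≤ Q.sup id ⊔ b := by
  classical
  obtain ⟨S, hS, hSa⟩ := hL (e ⊓ (p ⊔ b))
  have h1 : p ≤ sSup (insert b S) := by
    rw [sSup_insert, hSa]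
    have : (b ⊔ e) ⊓ (p ⊔ b) = b ⊔ e ⊓ (p ⊔ b) := sup_inf_assoc_of_le e le_sup_right
    rw [← this]
    exact le_inf (h.trans (sup_comm e b).le) le_sup_left
  obtain ⟨t, ht, hpt⟩ :=
    (CompleteLattice.isCompactElement_iff_exists_le_sSup_of_le_sSup L p).1 hp _ h1
  refine ⟨t.filter (· ∈ S), ?_, ?_⟩
  · intro q hq
    have hqS : q ∈ S := (Finset.mem_filter.1 hq).2
    have hq' : q ≤ e ⊓ (p ⊔ b) := by rw [← hSa]; exact le_sSup hqS
    exact ⟨hS q hqS, hq'.trans inf_le_left, hq'.trans inf_le_right⟩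
  · refine hpt.trans (Finset.sup_le ?_)
    intro x hx
    rcases ht hx with rfl | hxS
    · exact le_sup_right
    · exact (Finset.le_sup (f := id) (Finset.mem_filter.2 ⟨hx, hxS⟩)).trans le_sup_left

/-- Covering step with a tight set of points. -/
theorem exists_tight (hL : IsSpatial L) {p e b : L} (hp : IsCompactElement p)
    (h : p ≤ e ⊔ b) :
    ∃ Q : Finset L, (∀ q ∈ Q, IsPoint q ∧ q ≤ e) ∧ p ≤ Q.sup id ⊔ b ∧
      ∀ q ∈ Q, ∀ m, IsGreatest {x : L | x < q} m → ¬ p ≤ (@Finset.erase L (Classical.decEq L) Q q).sup id ⊔ m ⊔ b := by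
  classical
  let P : ℕ → Prop := fun n => ∃ Q : Finset L, Q.card = n ∧
    (∀ q ∈ Q, IsPoint q ∧ q ≤ e ∧ q ≤ p ⊔ b) ∧ p ≤ Q.sup id ⊔ b
  have hP : ∃ n, P n := by
    obtain ⟨Q, h1, h2⟩ := exists_cover hL hp h
    exact ⟨Q.card, Q, rfl, h1, h2⟩
  obtain ⟨Q, hcard, h1, h2⟩ := Nat.find_spec hP
  refine ⟨Q, fun q hq => ⟨(h1 q hq).1, (h1 q hq).2.1⟩, h2, ?_⟩
  intro q hq m hm hcon
  have e1 : @Finset.erase L (Classical.decEq L) Q q = Q.erase q := by congr
  rw [e1] at hcon
  have h3 : p ≤ (Q.erase q).sup id ⊔ b := by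
    refine superfluous (b := b) (q := q) (m := m) hp le_sup_right ?_ (h1 q hq).2.2 hm ?_ ?_
    · refine sup_le (Finset.sup_le ?_) le_sup_right
      intro x hx
      exact (h1 x (Finset.mem_of_mem_erase hx)).2.2
    · refine hcon.trans ?_
      refine sup_le (sup_le (le_sup_left.trans le_sup_left) le_sup_right)
        (le_sup_right.trans le_sup_left)
    · refine h2.trans (sup_le (Finset.sup_le ?_) (le_sup_right.trans le_sup_left))
      intro x hx
      by_cases hxq : x = q
      · subst hxq; exact le_sup_right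
      · exact (Finset.le_sup (f := id) (Finset.mem_erase.2 ⟨hxq, hx⟩)).trans
          (le_sup_left.trans le_sup_left)
  have h4 : P (Q.erase q).card :=
    ⟨Q.erase q, rfl, fun x hx => h1 x (Finset.mem_of_mem_erase hx), h3⟩
  have h5 : Nat.find hP ≤ (Q.erase q).card := Nat.find_min' hP h4
  have h6 : (Q.erase q).card < Q.card := Finset.card_erase_lt_of_mem hq
  omega

/-- The main induction. -/
theorem main_induction (hL : IsSpatial L) {p : L} (hp : IsCompactElement p) :
    ∀ (l : List L) (G : Finset L),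
      (∀ q ∈ G, IsPoint q) →
      p ≤ l.foldr (· ⊔ ·) ⊥ ⊔ G.sup id →
      (∀ q ∈ G, ∀ m, IsGreatest {x : L | x < q} m →
        ¬ p ≤ l.foldr (· ⊔ ·) ⊥ ⊔ (@Finset.erase L (Classical.decEq L) G q).sup id ⊔ m) →
      ∃ F : Finset L, (∀ q ∈ F, IsPoint q) ∧ p ≤ F.sup id ∧
        (∀ q ∈ F, (∃ e ∈ l, q ≤ e) ∨ q ∈ G) ∧
        (∀ q ∈ F, ∀ m, IsGreatest {x : L | x < q} m →
          ¬ p ≤ (@Finset.erase L (Classical.decEq L) F q).sup id ⊔ m) := by
  classical
  intro l
  induction l with
  | nil =>
    intro G hG hpG ht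
    refine ⟨G, hG, by simpa using hpG, fun q hq => Or.inr hq, ?_⟩
    intro q hq m hm
    have := ht q hq m hm
    simpa using this
  | cons e l ih =>
    intro G hG hpG ht
    simp only [List.foldr_cons] at hpG ht
    set E : L := l.foldr (· ⊔ ·) ⊥ with hE
    have h0 : p ≤ e ⊔ (E ⊔ G.sup id) := by rwa [← sup_assoc]
    obtain ⟨Q, hQ1, hQ2, hQ3⟩ := exists_tight hL hp h0
    have dis : ∀ q ∈ Q, q ∉ G := by
      intro q hq hqG
      obtain ⟨m, hm⟩ := (hQ1 q hq).1
      apply hQ3 q hq m hm
      refine hQ2.trans (sup_le (Finset.sup_le ?_) le_sup_right)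
      intro x hx
      by_cases hxq : x = q
      · subst hxq
        exact (Finset.le_sup (f := id) hqG).trans (le_sup_right.trans le_sup_right)
      · refine (Finset.le_sup (f := id) ?_).trans (le_sup_left.trans le_sup_left)
        simp only [Finset.mem_erase]
        exact ⟨hxq, hx⟩
    obtain ⟨F, hF1, hF2, hF3, hF4⟩ := ih (G ∪ Q) (by
      intro q hq
      rcases Finset.mem_union.1 hq with hq | hq
      · exact hG q hq
      · exact (hQ1 q hq).1) (by
      rw [Finset.sup_union]
      refine hQ2.trans (sup_le (le_sup_right.trans le_sup_right) (sup_le le_sup_left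
        (le_sup_left.trans le_sup_right)))) (by
      intro q hq m hm hcon
      by_cases hqQ : q ∈ Q
      · have hqG := dis q hqQ
        apply hQ3 q hqQ m hm
        refine hcon.trans (sup_le (sup_le (le_sup_left.trans le_sup_right)
          (Finset.sup_le ?_)) (le_sup_right.trans le_sup_left))
        intro x hx
        simp only [Finset.mem_erase, Finset.mem_union] at hx
        rcases hx with ⟨hxq, hxG | hxQ⟩
        · exact (Finset.le_sup (f := id) hxG).trans (le_sup_right.trans le_sup_right)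
        · refine (Finset.le_sup (f := id) ?_).trans (le_sup_left.trans le_sup_left)
          simp only [Finset.mem_erase]
          exact ⟨hxq, hxQ⟩
      · have hqG : q ∈ G := by
          rcases Finset.mem_union.1 hq with hq | hq
          · exact hq
          · exact absurd hq hqQ
        apply ht q hqG m hm
        refine hcon.trans (sup_le (sup_le (le_sup_right.trans (le_sup_left.trans le_sup_left))
          (Finset.sup_le ?_)) le_sup_right)
        intro x hx
        simp only [Finset.mem_erase, Finset.mem_union] at hx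
        rcases hx with ⟨hxq, hxG | hxQ⟩
        · refine (Finset.le_sup (f := id) ?_).trans (le_sup_right.trans le_sup_left)
          simp only [Finset.mem_erase]
          exact ⟨hxq, hxG⟩
        · exact (hQ1 x hxQ).2.trans (le_sup_left.trans (le_sup_left.trans le_sup_left)))
    refine ⟨F, hF1, hF2, ?_, hF4⟩
    intro q hq
    rcases hF3 q hq with ⟨e', he', hqe⟩ | hq'
    · exact Or.inl ⟨e', List.mem_cons_of_mem _ he', hqe⟩
    · rcases Finset.mem_union.1 hq' with hq' | hq'
      · exact Or.inr hq'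
      · exact Or.inl ⟨e, List.mem_cons_self, (hQ1 q hq').2⟩

end aux

/-- **Theorem.**  In a complete modular spatial lattice, every join-cover of a compact element
`p` is refined by a minimal join-cover of `p`. -/
theorem result (L : Type u) [CompleteLattice L] [IsModularLattice L] (hL : IsSpatial L)
    (p : L) (hp : IsCompactElement p) (E : Finset L) (hE : IsJoinCover p E) :
    ∃ F : Finset L, IsMinimalJoinCover p F ∧ Refines F E := by
  classical
  have hfold : ∀ l : List L, (∀ x ∈ l, x ≤ l.foldr (· ⊔ ·) ⊥) := by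
    intro l
    induction l with
    | nil => simp
    | cons a l ih =>
      intro x hx
      rcases List.mem_cons.1 hx with rfl | hx
      · exact le_sup_left
      · exact (ih x hx).trans le_sup_right
  obtain ⟨F, hF1, hF2, hF3, hF4⟩ := main_induction hL hp E.toList ∅ (by simp) (by
    refine (show p ≤ E.sup id from hE).trans (Finset.sup_le ?_)
    intro x hx
    exact (hfold _ x (Finset.mem_toList.2 hx)).trans le_sup_left) (by simp)
  refine ⟨F, ⟨hF2, ?_⟩, ?_⟩
  · intro X hX hXF q hq
    by_contra hqX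
    obtain ⟨m, hm⟩ := hF1 q hq
    apply hF4 q hq m hm
    refine (show p ≤ X.sup id from hX).trans (Finset.sup_le ?_)
    intro x hx
    obtain ⟨y, hy, hxy⟩ := hXF x hx
    by_cases hyq : y = q
    · subst hyq
      have hxq : x ≠ y := fun h => hqX (h ▸ hx)
      exact (hm.2 (lt_of_le_of_ne hxy hxq)).trans le_sup_right
    · refine hxy.trans ((Finset.le_sup (f := id) ?_).trans le_sup_left)
      simp only [Finset.mem_erase]
      exact ⟨hyq, hy⟩
  · intro q hq
    rcases hF3 q hq with ⟨e, he, hqe⟩ | h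
    · exact ⟨e, Finset.mem_toList.1 he, hqe⟩
    · simp at h

end Pool.Agent.Results.MP_d6b04a_al.CompactMinimalCover
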